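import Pool.Agent.TH931.LP.StmC

/-!
# One-dimensional integrals for the certificates of the cube (jobs Z1, Z2 of project LP931)
-/

set_option autoImplicit false

open MeasureTheory Set
open scoped ENNReal Matrix

noncomputable section

namespace Pool.Agent.TH52.LP931

open Pool.Agent.TH931.LP

lemma lint_Iic {a : ℝ} (ha : 0 < a) (c k : ℝ) :
    ∫⁻ x in Iic c, ENNReal.ofReal (Real.exp (a * x + k)) =
      ENNReal.ofReal (Real.exp (a * c + k) / a) := by
  have h1 : ∀ x : ℝ, Real.exp (a * x + k) = Real.exp k * Real.exp (a * x) := fun x => by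
    rw [← Real.exp_add]; ring_nf
  simp only [h1]
  rw [← ofReal_integral_eq_lintegral_ofReal ((integrableOn_exp_mul_Iic ha c).const_mul _)
    (Filter.Eventually.of_forall fun x => by positivity), integral_const_mul,
    integral_exp_mul_Iic ha]
  congr 1
  ring

lemma lint_Ioi {a : ℝ} (ha : a < 0) (c k : ℝ) :
    ∫⁻ x in Ioi c, ENNReal.ofReal (Real.exp (a * x + k)) =
      ENNReal.ofReal (Real.exp (a * c + k) / (-a)) := by
  have h1 : ∀ x : ℝ, Real.exp (a * x + k) = Real.exp k * Real.exp (a * x) := fun x => by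
    rw [← Real.exp_add]; ring_nf
  simp only [h1]
  rw [← ofReal_integral_eq_lintegral_ofReal ((integrableOn_exp_mul_Ioi ha c).const_mul _)
    (Filter.Eventually.of_forall fun x => by positivity), integral_const_mul,
    integral_exp_mul_Ioi ha]
  congr 1
  have : a ≠ 0 := ha.ne
  field_simp

lemma lint_Ici {a : ℝ} (ha : a < 0) (c k : ℝ) :
    ∫⁻ x in Ici c, ENNReal.ofReal (Real.exp (a * x + k)) =
      ENNReal.ofReal (Real.exp (a * c + k) / (-a)) := by
  rw [← lint_Ioi ha]
  exact setLIntegral_congr Ioi_ae_eq_Ici.symm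

/-- the two-facet integral on the line -/
lemma core {κ β : ℝ} (hκ : 0 < κ) (hb : |β| < κ) (t1 t2 : ℝ) :
    ∫⁻ w, ENNReal.ofReal (Real.exp (β * w - max (κ * w - t1) (-(κ * w) - t2))) =
      ENNReal.ofReal (2 * κ / (κ ^ 2 - β ^ 2) *
        Real.exp ((κ + β) / (2 * κ) * t1 + (κ - β) / (2 * κ) * t2)) := by
  obtain ⟨hb1, hb2⟩ := abs_lt.mp hb
  set w0 : ℝ := (t1 - t2) / (2 * κ) with hw0
  have hw0' : 2 * κ * w0 = t1 - t2 := by rw [hw0]; field_simp
  rw [← lintegral_add_compl _ (measurableSet_Iic (a := w0)), compl_Iic]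
  have e1 : ∫⁻ w in Iic w0, ENNReal.ofReal
      (Real.exp (β * w - max (κ * w - t1) (-(κ * w) - t2))) =
      ∫⁻ w in Iic w0, ENNReal.ofReal (Real.exp ((β + κ) * w + t2)) := by
    refine setLIntegral_congr_fun measurableSet_Iic fun w hw => ?_
    have hw' : w ≤ w0 := hw
    have : max (κ * w - t1) (-(κ * w) - t2) = -(κ * w) - t2 := by
      apply max_eq_right
      nlinarith
    simp only [this]
    ring_nf
  have e2 : ∫⁻ w in Ioi w0, ENNReal.ofReal
      (Real.exp (β * w - max (κ * w - t1) (-(κ * w) - t2))) =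
      ∫⁻ w in Ioi w0, ENNReal.ofReal (Real.exp ((β - κ) * w + t1)) := by
    refine setLIntegral_congr_fun measurableSet_Ioi fun w hw => ?_
    have hw' : w0 < w := hw
    have : max (κ * w - t1) (-(κ * w) - t2) = κ * w - t1 := by
      apply max_eq_left
      nlinarith
    simp only [this]
    ring_nf
  rw [e1, e2, lint_Iic (by linarith), lint_Ioi (by linarith), ← ENNReal.ofReal_add
    (div_nonneg (Real.exp_pos _).le (by linarith)) (div_nonneg (Real.exp_pos _).le (by linarith))]
  congr 1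
  have h1 : (β + κ) * w0 + t2 = (κ + β) / (2 * κ) * t1 + (κ - β) / (2 * κ) * t2 := by
    rw [hw0]; field_simp; ring
  have h2 : (β - κ) * w0 + t1 = (κ + β) / (2 * κ) * t1 + (κ - β) / (2 * κ) * t2 := by
    rw [hw0]; field_simp; ring
  rw [h1, h2]
  have h3 : β + κ ≠ 0 := by linarith
  have h4 : -(β - κ) ≠ 0 := by linarith
  have h5 : κ ^ 2 - β ^ 2 ≠ 0 := by
    have : κ ^ 2 - β ^ 2 = (κ - β) * (κ + β) := by ring
    rw [this]
    exact mul_ne_zero (by linarith) (by linarith)
  have h6 : κ - β ≠ 0 := by linarith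
  have h7 : κ + β ≠ 0 := by linarith
  rw [show -(β - κ) = κ - β by ring, show β + κ = κ + β by ring,
    show κ ^ 2 - β ^ 2 = (κ - β) * (κ + β) by ring]
  field_simp
  ring

/-- the normals of the cube -/
lemma u_dot {c : ℕ} (a : Fin (c + 1) × Bool) (z : Fin (c + 1) → ℝ) :
    (cubeF c).u a ⬝ᵥ z = sb a.2 * z a.1 := by
  simp [cubeF, dotProduct]

end Pool.Agent.TH52.LP931
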