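import Pool.Agent.TH52.LP931.Core

/-!
# Job Z1 of project LP931: the segment certificate
-/

set_option autoImplicit false

open MeasureTheory Set
open scoped ENNReal Matrix

noncomputable section

namespace Pool.Agent.TH52.LP931

open Pool.Agent.TH931.LP

lemma lint1' (f : (Fin 1 → ℝ) → ℝ≥0∞) : ∫⁻ z, f z = ∫⁻ x : ℝ, f (fun _ => x) := by
  have h := ((volume_preserving_funUnique (Fin 1) ℝ).symm
    (MeasurableEquiv.funUnique (Fin 1) ℝ)).lintegral_comp_emb
    (MeasurableEquiv.measurableEmbedding _) f
  exact h.symm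

lemma lint1 (f : (Fin (0 + 1) → ℝ) → ℝ≥0∞) : ∫⁻ z, f z = ∫⁻ x : ℝ, f (fun _ => x) :=
  lint1' f

lemma fin01 (i j : Fin (0 + 1)) : i = j := by
  apply Fin.ext
  omega

lemma meas_h0 : Measurable (cubeF 0).h := by
  unfold cubeF
  fun_prop

lemma mem_pol0 (x : ℝ) : (fun _ => x : Fin (0 + 1) → ℝ) ∈ (cubeF 0).pol ↔ x ∈ Icc (-1 : ℝ) 1 := by
  simp [Fr.pol, cubeF, abs_le]

lemma measurableSet_pol0 : MeasurableSet (cubeF 0).pol := by
  exact measurableSet_le meas_h0 measurable_const

lemma lint_pol0 (f : (Fin (0 + 1) → ℝ) → ℝ≥0∞) :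
    ∫⁻ b in (cubeF 0).pol, f b = ∫⁻ x in Icc (-1 : ℝ) 1, f (fun _ => x) := by
  rw [← lintegral_indicator measurableSet_pol0, lint1, ← lintegral_indicator measurableSet_Icc]
  refine lintegral_congr fun x => ?_
  by_cases hx : x ∈ Icc (-1 : ℝ) 1
  · rw [indicator_of_mem hx, indicator_of_mem ((mem_pol0 x).mpr hx)]
  · rw [indicator_of_notMem hx, indicator_of_notMem (fun h => hx ((mem_pol0 x).mp h))]

lemma vol_pol0 : volume (cubeF 0).pol = 2 := by
  have h := lint_pol0 (fun _ => 1)
  simp only [lintegral_one, Measure.restrict_apply MeasurableSet.univ, univ_inter] at h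
  rw [h, Real.volume_Icc]
  norm_num

lemma sb_sq (s : Bool) : sb s * sb s = 1 := by cases s <;> simp [sb]

lemma sb_abs (s : Bool) : |sb s| = 1 := by cases s <;> simp [sb]

lemma law0 (s : Bool) : ∫⁻ x in Icc (-1 : ℝ) 1, ENNReal.ofReal ((1 + sb s * x) / 2) = 1 := by
  rw [← ofReal_integral_eq_lintegral_ofReal]
  · rw [integral_Icc_eq_integral_Ioc, ← intervalIntegral.integral_of_le (by norm_num)]
    have : ∫ x in (-1 : ℝ)..1, (1 + sb s * x) / 2 = 1 := by
      have h1 : (fun x : ℝ => (1 + sb s * x) / 2) = fun x => 1 / 2 + sb s / 2 * x := by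
        funext x; ring
      rw [h1, intervalIntegral.integral_add (by simp) (by
        apply Continuous.intervalIntegrable; fun_prop), intervalIntegral.integral_const_mul,
        integral_id]
      simp
      norm_num
    rw [this]
    simp
  · apply Continuous.integrableOn_Icc
    fun_prop
  · refine (ae_restrict_iff' measurableSet_Icc).mpr (Filter.Eventually.of_forall fun x hx => ?_)
    have : |sb s * x| ≤ 1 := by
      rw [abs_mul, sb_abs, one_mul]
      exact abs_le.mpr hx
    have := abs_le.mp this
    simp only [Pi.zero_apply]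
    linarith

/-- the mean of `log 2 - log (1 - x²)` -/
lemma mean0 : ∫⁻ x in Icc (-1 : ℝ) 1, ENNReal.ofReal (Real.log 2 - Real.log (1 - x ^ 2)) =
    ENNReal.ofReal (2 * (2 - Real.log 2)) := by
  have hg : ∀ x ∈ Ioo (-1 : ℝ) 1, Real.log 2 - Real.log (1 - x ^ 2) =
      Real.log 2 - (Real.log (1 - x) + Real.log (1 + x)) := by
    intro x hx
    have h1 : (1 - x) ≠ 0 := by linarith [hx.2]
    have h2 : (1 + x) ≠ 0 := by linarith [hx.1]
    rw [show 1 - x ^ 2 = (1 - x) * (1 + x) by ring, Real.log_mul h1 h2]
  have hnn : ∀ x ∈ Ioo (-1 : ℝ) 1, 0 ≤ Real.log 2 - Real.log (1 - x ^ 2) := by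
    intro x hx
    have h1 : Real.log (1 - x ^ 2) ≤ 0 := by
      apply Real.log_nonpos
      · nlinarith [hx.1, hx.2]
      · nlinarith [sq_nonneg x]
    have h2 : 0 ≤ Real.log 2 := Real.log_nonneg (by norm_num)
    linarith
  have hi1 : IntervalIntegrable (fun x : ℝ => Real.log (1 - x)) volume (-1) 1 := by
    have := (intervalIntegral.intervalIntegrable_log' (a := 2) (b := 0)).comp_sub_left 1
    convert this using 1 <;> norm_num
  have hi2 : IntervalIntegrable (fun x : ℝ => Real.log (1 + x)) volume (-1) 1 := by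
    have := (intervalIntegral.intervalIntegrable_log' (a := 0) (b := 2)).comp_add_left 1
    convert this using 1 <;> norm_num
  have hi : IntervalIntegrable (fun x : ℝ => Real.log 2 - (Real.log (1 - x) + Real.log (1 + x)))
      volume (-1) 1 := by
    exact (intervalIntegrable_const).sub (hi1.add hi2)
  have hval : ∫ x in (-1 : ℝ)..1, (Real.log 2 - (Real.log (1 - x) + Real.log (1 + x))) =
      2 * (2 - Real.log 2) := by
    rw [intervalIntegral.integral_sub intervalIntegrable_const (hi1.add hi2),
      intervalIntegral.integral_add hi1 hi2,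
      intervalIntegral.integral_comp_sub_left (fun x => Real.log x) 1,
      intervalIntegral.integral_comp_add_left (fun x => Real.log x) 1, integral_log, integral_log]
    simp
    norm_num
    ring
  rw [setLIntegral_congr Ioo_ae_eq_Icc.symm, setLIntegral_congr_fun measurableSet_Ioo
    (fun x hx => by rw [hg x hx])]
  rw [← ofReal_integral_eq_lintegral_ofReal]
  · rw [← integral_Ioc_eq_integral_Ioo, ← intervalIntegral.integral_of_le (by norm_num), hval]
  · exact ((intervalIntegrable_iff_integrableOn_Ioo_of_le (by norm_num)).mp hi)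
  · refine (ae_restrict_iff' measurableSet_Ioo).mpr (Filter.Eventually.of_forall fun x hx => ?_)
    have := hnn x hx
    rw [hg x hx] at this
    exact this

/-- the certificate inequality for the segment -/
lemma cert0 (b : Fin (0 + 1) → ℝ) (hb : |b 0| < 1) (τ : Fin (0 + 1) × Bool → ℝ) :
    ∫⁻ z, ENNReal.ofReal (Real.exp (z ⬝ᵥ b - ⨆ a, ((cubeF 0).u a ⬝ᵥ z - τ a))) =
      ENNReal.ofReal (Real.exp (∑ a : Fin (0 + 1) × Bool, (1 + sb a.2 * b 0) / 2 * τ a +
        (Real.log 2 - Real.log (1 - b 0 ^ 2)))) := by
  rw [lint1]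
  have h1 : ∀ x : ℝ, ((fun _ => x : Fin (0 + 1) → ℝ) ⬝ᵥ b -
      ⨆ a, ((cubeF 0).u a ⬝ᵥ (fun _ => x : Fin (0 + 1) → ℝ) - τ a)) =
      b 0 * x - max (1 * x - τ (0, true)) (-(1 * x) - τ (0, false)) := by
    intro x
    have e1 : (fun _ => x : Fin (0 + 1) → ℝ) ⬝ᵥ b = b 0 * x := by
      simp [dotProduct, mul_comm]
    have e2 : (⨆ a, ((cubeF 0).u a ⬝ᵥ (fun _ => x : Fin (0 + 1) → ℝ) - τ a)) =
        max (1 * x - τ (0, true)) (-(1 * x) - τ (0, false)) := by
      apply le_antisymm
      · apply ciSup_le
        rintro ⟨i, s⟩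
        rw [u_dot]
        have hi : i = 0 := fin01 _ _
        subst hi
        cases s
        · refine le_trans (le_of_eq ?_) (le_max_right _ _)
          simp [sb]
        · refine le_trans (le_of_eq ?_) (le_max_left _ _)
          simp [sb]
      · have hbdd : BddAbove (range fun a => ((cubeF 0).u a ⬝ᵥ (fun _ => x : Fin (0 + 1) → ℝ) -
            τ a)) := (finite_range _).bddAbove
        apply max_le
        · refine le_trans (le_of_eq ?_) (le_ciSup hbdd (0, true))
          simp only [u_dot]
          simp [sb]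
        · refine le_trans (le_of_eq ?_) (le_ciSup hbdd (0, false))
          simp only [u_dot]
          simp [sb]
    rw [e1, e2]
  simp only [h1]
  rw [core one_pos hb]
  congr 1
  have h2 : 0 < 1 - b 0 ^ 2 := by
    have := abs_lt.mp hb
    nlinarith
  have hr : ∀ S : ℝ, Real.exp (S + (Real.log 2 - Real.log (1 - b 0 ^ 2))) =
      Real.exp S * (2 / (1 - b 0 ^ 2)) := by
    intro S
    rw [Real.exp_add, Real.exp_sub, Real.exp_log (by norm_num), Real.exp_log h2]
  rw [hr, Fintype.sum_prod_type]
  have h3 : ∀ f : Fin (0 + 1) → ℝ, ∑ x, f x = f 0 := by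
    intro f
    rw [Finset.sum_eq_single (0 : Fin (0 + 1))]
    · intro x _ hx
      exact absurd (fin01 x 0) hx
    · intro h
      exact absurd (Finset.mem_univ _) h
  rw [h3, Fintype.sum_bool]
  have h4 : (1 + b 0) / (2 * 1) * τ (0, true) + (1 - b 0) / (2 * 1) * τ (0, false) =
      (1 + sb (0, true).2 * b 0) / 2 * τ (0, true) +
        (1 + sb (0, false).2 * b 0) / 2 * τ (0, false) := by
    have e1 : sb (0, true).2 = 1 := rfl
    have e2 : sb (0, false).2 = -1 := rfl
    rw [e1, e2]
    ring
  rw [h4]
  ring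

theorem z1 : S_z1 := by
  refine ⟨?_, ?_⟩
  · constructor
    · intro b a hb
      have h1 : |b 0| ≤ 1 := by simpa [cubeF] using hb
      have : |sb a.2 * b 0| ≤ 1 := by rw [abs_mul, sb_abs, one_mul]; exact h1
      have := abs_le.mp this
      show 0 ≤ (1 + sb a.2 * b 0) / 2
      linarith
    · intro a
      fun_prop
    · intro b _
      rw [Fintype.sum_prod_type]
      simp [sb]
      ring
    · intro b _
      ext j
      have hj : j = 0 := fin01 _ _
      subst hj
      rw [Fintype.sum_prod_type]
      simp [sb, cubeF]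
      ring
    · intro a
      rw [lint_pol0, vol_pol0]
      have h1 : ∑ e, alC 0 a e = 1 / 2 := by
        have h2 : ∀ e : Fin (0 + 1) → Bool, alC 0 a e = if e = (fun _ => a.2) then (1 : ℝ) / 2 else 0 := by
          intro e
          unfold alC
          have h3 : (e a.1 = a.2) ↔ e = (fun _ => a.2) := by
            constructor
            · intro h
              funext i
              rw [← h]
              congr 1
              exact fin01 _ _
            · intro h
              rw [h]
          simp only [h3]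
          congr 1
          norm_num
        simp only [h2]
        rw [Finset.sum_ite_eq' Finset.univ (fun _ => a.2)]
        simp
      rw [h1]
      have := law0 a.2
      rw [this]
      rw [show (2 : ℝ≥0∞) = ENNReal.ofReal 2 by simp, ← ENNReal.ofReal_mul (by norm_num)]
      norm_num
  · constructor
    · exact measurableSet_lt (by fun_prop) measurable_const
    · refine measure_mono_null (t := {b : Fin (0 + 1) → ℝ | b 0 = 1 ∨ b 0 = -1}) ?_ ?_
      · rintro b ⟨h1, h2⟩
        have h1' : |b 0| ≤ 1 := by simpa [cubeF, Fr.pol] using h1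
        have h2' : ¬ |b 0| < 1 := h2
        have h3 : |b 0| = 1 := le_antisymm h1' (not_lt.mp h2')
        exact (abs_eq (by norm_num)).mp h3
      · have hm : MeasurableSet {b : Fin (0 + 1) → ℝ | b 0 = 1 ∨ b 0 = -1} := by
          apply MeasurableSet.union
          · exact measurableSet_eq_fun (by fun_prop) measurable_const
          · exact measurableSet_eq_fun (by fun_prop) measurable_const
        rw [← lintegral_indicator_one hm, lint1]
        have : ∫⁻ x : ℝ, ({b : Fin (0 + 1) → ℝ | b 0 = 1 ∨ b 0 = -1}.indicator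
            (1 : (Fin (0 + 1) → ℝ) → ℝ≥0∞)) (fun _ => x) =
            ∫⁻ x : ℝ, ({1, -1} : Set ℝ).indicator 1 x := by
          refine lintegral_congr fun x => ?_
          by_cases hx : x = 1 ∨ x = -1
          · rw [indicator_of_mem (show (fun _ => x) ∈ {b : Fin (0 + 1) → ℝ | b 0 = 1 ∨ b 0 = -1}
              from hx), indicator_of_mem (show x ∈ ({1, -1} : Set ℝ) by simpa using hx)]
            rfl
          · rw [indicator_of_notMem (show ¬ (fun _ => x) ∈
              {b : Fin (0 + 1) → ℝ | b 0 = 1 ∨ b 0 = -1} from hx),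
              indicator_of_notMem (show ¬ x ∈ ({1, -1} : Set ℝ) by simpa using hx)]
        rw [this, lintegral_indicator_one (by measurability)]
        exact (Set.Finite.measure_zero (by simp) _)
    · intro b hb
      have : |b 0| < 1 := hb
      simpa [cubeF] using this
    · fun_prop
    · intro b hb
      have h0 : |b 0| < 1 := hb
      have h1 : Real.log (1 - b 0 ^ 2) ≤ 0 := by
        obtain ⟨h2, h3⟩ := abs_lt.mp h0
        apply Real.log_nonpos
        · nlinarith
        · nlinarith [sq_nonneg (b 0)]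
      have h2 : 0 ≤ Real.log 2 := Real.log_nonneg (by norm_num)
      show 0 ≤ Real.log 2 - Real.log (1 - b 0 ^ 2)
      linarith
    · intro b hb τ
      exact (cert0 b hb τ).le
    · have : Real.log 2 < 1 := by linarith [Real.log_two_lt_d9]
      linarith
    · rw [lint_pol0, vol_pol0, mean0]
      rw [mul_comm (2 : ℝ), ENNReal.ofReal_mul' (by norm_num)]
      simp

end Pool.Agent.TH52.LP931
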