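import Pool.Agent.TH52.LP931.Core

/-!
# Job Z2 of project LP931: the certificate inequality with a pair as base
-/

set_option autoImplicit false

open MeasureTheory Set
open scoped ENNReal Matrix

noncomputable section

namespace Pool.Agent.TH52.LP931

open Pool.Agent.TH931.LP

/-- Tonelli for products of functions of one coordinate -/
lemma lint_prod : ∀ (n : ℕ) (f : Fin n → ℝ → ℝ≥0∞), (∀ l, Measurable (f l)) →
    ∫⁻ z : Fin n → ℝ, ∏ l, f l (z l) = ∏ l, ∫⁻ x, f l x := by
  intro n
  induction n with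
  | zero =>
    intro f _
    simp only [Finset.univ_eq_empty, Finset.prod_empty, lintegral_one, volume_pi,
      Measure.pi_empty_univ]
  | succ n ih =>
    intro f hf
    have h := (volume_preserving_piFinSuccAbove (fun _ : Fin (n + 1) => ℝ) 0).lintegral_comp_emb
      (MeasurableEquiv.measurableEmbedding _)
      (fun p : ℝ × (Fin n → ℝ) => f 0 p.1 * ∏ l, f (Fin.succ l) (p.2 l))
    have e : ∀ z : Fin (n + 1) → ℝ, ∏ l, f l (z l) =
        (fun p : ℝ × (Fin n → ℝ) => f 0 p.1 * ∏ l, f (Fin.succ l) (p.2 l))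
          (MeasurableEquiv.piFinSuccAbove (fun _ : Fin (n + 1) => ℝ) 0 z) := by
      intro z
      rw [Fin.prod_univ_succ]
      rfl
    simp only [e]
    have h2 : Measurable fun w : Fin n → ℝ => ∏ l, f (Fin.succ l) (w l) :=
      Finset.measurable_prod _ fun l _ => (hf _).comp (measurable_pi_apply l)
    rw [h, Measure.volume_eq_prod, lintegral_prod_mul (f := f 0)
      (g := fun w : Fin n → ℝ => ∏ l, f (Fin.succ l) (w l)) (hf 0).aemeasurable h2.aemeasurable,
      ih _ fun l => hf _, Fin.prod_univ_succ]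

variable {c : ℕ}

/-- one coordinate of the cut off exponential -/
def gg (b : Fin (c + 1) → ℝ) (τ : Fin (c + 1) × Bool → ℝ) (l : Fin (c + 1)) (r x : ℝ) : ℝ≥0∞ :=
  if x - τ (l, true) ≤ r ∧ -x - τ (l, false) ≤ r then ENNReal.ofReal (Real.exp (b l * x)) else 0

lemma gg_meas (b : Fin (c + 1) → ℝ) (τ : Fin (c + 1) × Bool → ℝ) (l : Fin (c + 1)) :
    Measurable fun p : ℝ × ℝ => gg b τ l p.1 p.2 := by
  unfold gg
  refine Measurable.ite ?_ (by fun_prop) measurable_const
  exact (measurableSet_le (f := fun p : ℝ × ℝ => p.2 - τ (l, true)) (g := fun p => p.1)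
    (by fun_prop) (by fun_prop)).inter
    (measurableSet_le (f := fun p : ℝ × ℝ => -p.2 - τ (l, false)) (g := fun p => p.1)
    (by fun_prop) (by fun_prop))

lemma stepA (b : Fin (c + 1) → ℝ) (τ : Fin (c + 1) × Bool → ℝ) (z : Fin (c + 1) → ℝ) :
    ENNReal.ofReal (Real.exp (z ⬝ᵥ b - ⨆ a, ((cubeF c).u a ⬝ᵥ z - τ a))) =
      ∫⁻ r, ENNReal.ofReal (Real.exp (-r)) * ∏ l, gg b τ l r (z l) := by
  set M := ⨆ a, ((cubeF c).u a ⬝ᵥ z - τ a) with hM
  have h1 : ENNReal.ofReal (Real.exp (z ⬝ᵥ b - M)) =
      ∫⁻ r in Ici M, ENNReal.ofReal (Real.exp ((-1) * r + z ⬝ᵥ b)) := by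
    rw [lint_Ici (by norm_num)]
    congr 1
    rw [neg_neg, div_one]
    congr 1
    ring
  rw [h1, ← lintegral_indicator measurableSet_Ici]
  refine lintegral_congr fun r => ?_
  have hbdd : BddAbove (range fun a => ((cubeF c).u a ⬝ᵥ z - τ a)) := (finite_range _).bddAbove
  by_cases hr : M ≤ r
  · rw [indicator_of_mem (show r ∈ Ici M from hr)]
    have h2 : ∀ l, gg b τ l r (z l) = ENNReal.ofReal (Real.exp (b l * z l)) := by
      intro l
      unfold gg
      rw [if_pos]
      have h3 := (le_ciSup hbdd (l, true)).trans hr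
      have h4 := (le_ciSup hbdd (l, false)).trans hr
      simp only [u_dot, sb, if_true, one_mul] at h3
      simp only [u_dot, sb, Bool.false_eq_true, if_false, neg_mul, one_mul] at h4
      exact ⟨h3, h4⟩
    simp only [h2]
    rw [← ENNReal.ofReal_prod_of_nonneg (fun l _ => (Real.exp_pos _).le), ← Real.exp_sum,
      ← ENNReal.ofReal_mul (Real.exp_pos _).le, ← Real.exp_add]
    congr 2
    rw [neg_one_mul, dotProduct]
    congr 1
    exact Finset.sum_congr rfl fun l _ => mul_comm _ _
  · rw [indicator_of_notMem (show r ∉ Ici M from hr)]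
    have h2 : ∃ a, ¬ ((cubeF c).u a ⬝ᵥ z - τ a ≤ r) := by
      by_contra hcon
      push Not at hcon
      exact hr (ciSup_le hcon)
    obtain ⟨⟨l, t⟩, ha⟩ := h2
    have h3 : gg b τ l r (z l) = 0 := by
      unfold gg
      rw [if_neg]
      rintro ⟨h4, h5⟩
      apply ha
      rw [u_dot]
      cases t
      · simpa [sb] using h5
      · simpa [sb] using h4
    rw [Finset.prod_eq_zero (Finset.mem_univ l) h3, mul_zero]

lemma stepB (b : Fin (c + 1) → ℝ) (τ : Fin (c + 1) × Bool → ℝ) :
    ∫⁻ z, ENNReal.ofReal (Real.exp (z ⬝ᵥ b - ⨆ a, ((cubeF c).u a ⬝ᵥ z - τ a))) =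
      ∫⁻ r, ENNReal.ofReal (Real.exp (-r)) * ∏ l, ∫⁻ x, gg b τ l r x := by
  simp only [stepA]
  rw [lintegral_lintegral_swap]
  · refine lintegral_congr fun r => ?_
    rw [lintegral_const_mul, lint_prod]
    · intro l
      exact (gg_meas b τ l).comp (measurable_const.prodMk measurable_id)
    · exact Finset.measurable_prod _ fun l _ =>
        (gg_meas b τ l).comp (measurable_const.prodMk (measurable_pi_apply l))
  · apply Measurable.aemeasurable
    refine Measurable.mul (by fun_prop) ?_
    exact Finset.measurable_prod _ fun l _ =>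
        (gg_meas b τ l).comp (measurable_snd.prodMk ((measurable_pi_apply l).comp measurable_fst))

/-- the bound of one factor -/
lemma stepC (b : Fin (c + 1) → ℝ) (τ : Fin (c + 1) × Bool → ℝ) (l : Fin (c + 1)) (hl : b l ≠ 0)
    (r : ℝ) : ∫⁻ x, gg b τ l r x ≤
      ENNReal.ofReal (Real.exp (|b l| * (r + τ (l, decide (0 ≤ b l)))) / |b l|) := by
  rcases lt_or_gt_of_ne hl with h | h
  · have hd : decide (0 ≤ b l) = false := by simpa using h
    rw [hd, abs_of_neg h]
    have h1 := lint_Ici h (-r - τ (l, false)) 0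
    have h2 : Real.exp (-b l * (r + τ (l, false))) / (-b l) =
        Real.exp (b l * (-r - τ (l, false)) + 0) / (-b l) := by
      congr 2
      ring
    rw [h2, ← h1, ← lintegral_indicator measurableSet_Ici]
    refine lintegral_mono fun x => ?_
    unfold gg
    split_ifs with hx
    · rw [indicator_of_mem (show x ∈ Ici (-r - τ (l, false)) by
        simp only [mem_Ici]; linarith [hx.2]), add_zero]
    · exact zero_le
  · have hd : decide (0 ≤ b l) = true := by simpa using h.le
    rw [hd, abs_of_pos h]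
    have h1 := lint_Iic h (r + τ (l, true)) 0
    have h2 : Real.exp (b l * (r + τ (l, true))) / (b l) =
        Real.exp (b l * (r + τ (l, true)) + 0) / (b l) := by
      rw [add_zero]
    rw [h2, ← h1, ← lintegral_indicator measurableSet_Iic]
    refine lintegral_mono fun x => ?_
    unfold gg
    split_ifs with hx
    · rw [indicator_of_mem (show x ∈ Iic (r + τ (l, true)) by
        simp only [mem_Iic]; linarith [hx.1]), add_zero]
    · exact zero_le

/-- the index set of the other coordinates -/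
def PP (i j : Fin (c + 1)) : Finset (Fin (c + 1)) := (Finset.univ.erase i).erase j

lemma prod_split {M : Type*} [CommMonoid M] (i j : Fin (c + 1)) (hij : i ≠ j)
    (f : Fin (c + 1) → M) : ∏ l, f l = f i * f j * ∏ l ∈ PP i j, f l := by
  unfold PP
  rw [mul_assoc, Finset.mul_prod_erase _ _ (Finset.mem_erase.mpr ⟨hij.symm, Finset.mem_univ j⟩),
    Finset.mul_prod_erase _ _ (Finset.mem_univ i)]

lemma sum_split {M : Type*} [AddCommMonoid M] (i j : Fin (c + 1)) (hij : i ≠ j)
    (f : Fin (c + 1) → M) : ∑ l, f l = f i + f j + ∑ l ∈ PP i j, f l := by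
  unfold PP
  rw [add_assoc, Finset.add_sum_erase _ _ (Finset.mem_erase.mpr ⟨hij.symm, Finset.mem_univ j⟩),
    Finset.add_sum_erase _ _ (Finset.mem_univ i)]

/-- the constant -/
def KK (i j : Fin (c + 1)) (b : Fin (c + 1) → ℝ) (τ : Fin (c + 1) × Bool → ℝ) : ℝ :=
  Real.exp (∑ l ∈ PP i j, |b l| * τ (l, decide (0 ≤ b l))) / ∏ l ∈ PP i j, |b l|

lemma stepD (i j : Fin (c + 1)) (hij : i ≠ j) (b : Fin (c + 1) → ℝ) (hb : ∀ l, b l ≠ 0)
    (τ : Fin (c + 1) × Bool → ℝ) :
    ∫⁻ r, ENNReal.ofReal (Real.exp (-r)) * ∏ l, ∫⁻ x, gg b τ l r x ≤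
      ENNReal.ofReal (KK i j b τ) * ∫⁻ r, ENNReal.ofReal (Real.exp (-(sP i j b * r))) *
        ((∫⁻ x, gg b τ i r x) * ∫⁻ y, gg b τ j r y) := by
  rw [← lintegral_const_mul' _ _ ENNReal.ofReal_ne_top]
  refine lintegral_mono fun r => ?_
  rw [prod_split i j hij]
  have h1 : ∏ l ∈ PP i j, ∫⁻ x, gg b τ l r x ≤
      ENNReal.ofReal (Real.exp ((1 - sP i j b) * r) * KK i j b τ) := by
    calc ∏ l ∈ PP i j, ∫⁻ x, gg b τ l r x ≤ ∏ l ∈ PP i j, ENNReal.ofReal
          (Real.exp (|b l| * (r + τ (l, decide (0 ≤ b l)))) / |b l|) :=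
          Finset.prod_le_prod' fun l _ => stepC b τ l (hb l) r
      _ = ENNReal.ofReal (Real.exp ((1 - sP i j b) * r) * KK i j b τ) := by
          rw [← ENNReal.ofReal_prod_of_nonneg fun l _ => by positivity]
          congr 1
          rw [Finset.prod_div_distrib, ← Real.exp_sum, KK, ← mul_div_assoc, ← Real.exp_add]
          congr 2
          have h2 : 1 - sP i j b = ∑ l ∈ PP i j, |b l| := by
            unfold sP PP
            ring
          rw [h2, Finset.sum_mul, ← Finset.sum_add_distrib]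
          exact Finset.sum_congr rfl fun l _ => by ring
  calc ENNReal.ofReal (Real.exp (-r)) * ((∫⁻ x, gg b τ i r x) * (∫⁻ x, gg b τ j r x) *
        ∏ l ∈ PP i j, ∫⁻ x, gg b τ l r x)
      ≤ ENNReal.ofReal (Real.exp (-r)) * ((∫⁻ x, gg b τ i r x) * (∫⁻ x, gg b τ j r x) *
        ENNReal.ofReal (Real.exp ((1 - sP i j b) * r) * KK i j b τ)) := by gcongr
    _ = _ := by
        have h3 : ENNReal.ofReal (Real.exp (-r)) *
            ENNReal.ofReal (Real.exp ((1 - sP i j b) * r) * KK i j b τ) =
            ENNReal.ofReal (KK i j b τ) * ENNReal.ofReal (Real.exp (-(sP i j b * r))) := by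
          rw [← ENNReal.ofReal_mul (Real.exp_pos _).le, ← ENNReal.ofReal_mul']
          · congr 1
            rw [← mul_assoc, ← Real.exp_add, mul_comm]
            congr 2
            ring
          · exact (Real.exp_pos _).le
        calc _ = (ENNReal.ofReal (Real.exp (-r)) *
            ENNReal.ofReal (Real.exp ((1 - sP i j b) * r) * KK i j b τ)) *
              ((∫⁻ x, gg b τ i r x) * ∫⁻ x, gg b τ j r x) := by ring
          _ = _ := by rw [h3, mul_assoc]

/-- the norm of the pair -/
def mm (i j : Fin (c + 1)) (τ : Fin (c + 1) × Bool → ℝ) (x y : ℝ) : ℝ :=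
  max (max (x - τ (i, true)) (-x - τ (i, false))) (max (y - τ (j, true)) (-y - τ (j, false)))

lemma stepE (i j : Fin (c + 1)) (b : Fin (c + 1) → ℝ) (τ : Fin (c + 1) × Bool → ℝ) {s : ℝ}
    (hs : 0 < s) :
    ∫⁻ r, ENNReal.ofReal (Real.exp (-(s * r))) *
        ((∫⁻ x, gg b τ i r x) * ∫⁻ y, gg b τ j r y) =
      ENNReal.ofReal (1 / s) *
        ∫⁻ x, ∫⁻ y, ENNReal.ofReal (Real.exp (b i * x + b j * y - s * mm i j τ x y)) := by
  have m1 : ∀ l r, Measurable (gg b τ l r) := fun l r =>
    (gg_meas b τ l).comp (measurable_const.prodMk measurable_id)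
  have h1 : ∀ r, ENNReal.ofReal (Real.exp (-(s * r))) *
        ((∫⁻ x, gg b τ i r x) * ∫⁻ y, gg b τ j r y) =
      ∫⁻ x, ∫⁻ y, ENNReal.ofReal (Real.exp (-(s * r))) * (gg b τ i r x * gg b τ j r y) := by
    intro r
    rw [← lintegral_mul_const _ (m1 i r), ← lintegral_const_mul _ (by fun_prop (disch := exact m1 i r))]
    refine lintegral_congr fun x => ?_
    rw [← lintegral_const_mul _ (m1 j r), ← lintegral_const_mul _ (by
      exact measurable_const.mul (m1 j r))]
  simp only [h1]
  have h2 : ∀ x y, ∫⁻ r, ENNReal.ofReal (Real.exp (-(s * r))) * (gg b τ i r x * gg b τ j r y) =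
      ENNReal.ofReal (1 / s) *
        ENNReal.ofReal (Real.exp (b i * x + b j * y - s * mm i j τ x y)) := by
    intro x y
    have h3 := lint_Ici (neg_lt_zero.mpr hs) (mm i j τ x y) (b i * x + b j * y)
    have h4 : ENNReal.ofReal (1 / s) *
        ENNReal.ofReal (Real.exp (b i * x + b j * y - s * mm i j τ x y)) =
        ENNReal.ofReal (Real.exp (-s * mm i j τ x y + (b i * x + b j * y)) / - -s) := by
      rw [← ENNReal.ofReal_mul (by positivity)]
      congr 1
      rw [neg_neg, one_div, inv_mul_eq_div]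
      congr 2
      ring
    rw [h4, ← h3, ← lintegral_indicator measurableSet_Ici]
    refine lintegral_congr fun r => ?_
    by_cases hr : mm i j τ x y ≤ r
    · rw [indicator_of_mem (show r ∈ Ici _ from hr)]
      have hr' := hr
      unfold mm at hr'
      simp only [max_le_iff] at hr'
      unfold gg
      rw [if_pos hr'.1, if_pos hr'.2, ← ENNReal.ofReal_mul (Real.exp_pos _).le,
        ← ENNReal.ofReal_mul (Real.exp_pos _).le, ← Real.exp_add, ← Real.exp_add]
      congr 2
      ring
    · rw [indicator_of_notMem (show r ∉ Ici _ from hr)]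
      unfold mm at hr
      simp only [max_le_iff, not_and_or] at hr
      unfold gg
      rcases hr with hr | hr
      · rw [if_neg (by rw [not_and_or]; exact hr), zero_mul, mul_zero]
      · rw [if_neg (c := y - τ (j, true) ≤ r ∧ -y - τ (j, false) ≤ r) (by
          rw [not_and_or]; exact hr), mul_zero, mul_zero]
  have m3 : Measurable fun p : ℝ × ℝ × ℝ => ENNReal.ofReal (Real.exp (-(s * p.1))) *
      (gg b τ i p.1 p.2.1 * gg b τ j p.1 p.2.2) := by
    refine Measurable.mul (by fun_prop) (Measurable.mul ?_ ?_)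
    · exact (gg_meas b τ i).comp (measurable_fst.prodMk measurable_snd.fst)
    · exact (gg_meas b τ j).comp (measurable_fst.prodMk measurable_snd.snd)
  rw [lintegral_lintegral_swap]
  · have h5 : ∀ x, ∫⁻ r, ∫⁻ y, ENNReal.ofReal (Real.exp (-(s * r))) *
        (gg b τ i r x * gg b τ j r y) =
        ∫⁻ y, ENNReal.ofReal (1 / s) *
        ENNReal.ofReal (Real.exp (b i * x + b j * y - s * mm i j τ x y)) := by
      intro x
      rw [lintegral_lintegral_swap]
      · exact lintegral_congr fun y => h2 x y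
      · exact (m3.comp (measurable_fst.prodMk
          (measurable_const.prodMk measurable_snd))).aemeasurable
    simp only [h5]
    have h6 : ∀ x, ∫⁻ y, ENNReal.ofReal (1 / s) *
        ENNReal.ofReal (Real.exp (b i * x + b j * y - s * mm i j τ x y)) =
        ENNReal.ofReal (1 / s) * ∫⁻ y,
          ENNReal.ofReal (Real.exp (b i * x + b j * y - s * mm i j τ x y)) := fun x =>
      lintegral_const_mul' _ _ ENNReal.ofReal_ne_top
    simp only [h6]
    rw [lintegral_const_mul' _ _ ENNReal.ofReal_ne_top]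
  · apply Measurable.aemeasurable
    have := m3.comp (f := fun q : (ℝ × ℝ) × ℝ => (q.1.1, q.1.2, q.2)) (by fun_prop)
    exact Measurable.lintegral_prod_right' this

lemma mm_cont (i j : Fin (c + 1)) (τ : Fin (c + 1) × Bool → ℝ) :
    Continuous fun p : ℝ × ℝ => mm i j τ p.1 p.2 := by
  unfold mm
  fun_prop

/-- the integral over the pair -/
lemma stepF (i j : Fin (c + 1)) (b : Fin (c + 1) → ℝ) (τ : Fin (c + 1) × Bool → ℝ) {s : ℝ}
    (hs : 0 < s) (h1 : |b i + b j| < s) (h2 : |b i - b j| < s) :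
    ∫⁻ x, ∫⁻ y, ENNReal.ofReal (Real.exp (b i * x + b j * y - s * mm i j τ x y)) ≤
      ENNReal.ofReal (2 * s / (s ^ 2 - (b i + b j) ^ 2) * (4 * s / (s ^ 2 - (b i - b j) ^ 2)) *
        Real.exp (s * ((1 + (b i + b j) / s) * (1 + (b i - b j) / s) / 4) * τ (i, true) +
          s * ((1 - (b i + b j) / s) * (1 - (b i - b j) / s) / 4) * τ (i, false) +
          s * ((1 + (b i + b j) / s) * (1 - (b i - b j) / s) / 4) * τ (j, true) +
          s * ((1 - (b i + b j) / s) * (1 + (b i - b j) / s) / 4) * τ (j, false))) := by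
  have hc : Continuous fun p : ℝ × ℝ => Real.exp (b i * p.1 + b j * p.2 - s * mm i j τ p.1 p.2) := by
    have := mm_cont i j τ
    fun_prop
  have hsub : ∀ x, ∫⁻ y, ENNReal.ofReal (Real.exp (b i * x + b j * y - s * mm i j τ x y)) =
      ∫⁻ q, ENNReal.ofReal (Real.exp (b i * x + b j * (x - q) - s * mm i j τ x (x - q))) :=
    fun x => (lintegral_sub_left_eq_self
      (fun y => ENNReal.ofReal (Real.exp (b i * x + b j * y - s * mm i j τ x y))) x).symm
  simp only [hsub]
  rw [lintegral_lintegral_swap]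
  swap
  · apply Measurable.aemeasurable
    apply ENNReal.measurable_ofReal.comp
    have := hc.comp (f := fun p : ℝ × ℝ => (p.1, p.1 - p.2)) (by fun_prop)
    exact this.measurable
  have hsh : ∀ q, ∫⁻ x, ENNReal.ofReal
      (Real.exp (b i * x + b j * (x - q) - s * mm i j τ x (x - q))) =
      ∫⁻ w, ENNReal.ofReal (Real.exp (b i * (w + q / 2) + b j * (w + q / 2 - q) -
        s * mm i j τ (w + q / 2) (w + q / 2 - q))) :=
    fun q => (lintegral_add_right_eq_self (fun x => ENNReal.ofReal
      (Real.exp (b i * x + b j * (x - q) - s * mm i j τ x (x - q)))) (q / 2)).symm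
  simp only [hsh]
  set β : ℝ := b i + b j with hβ
  set δ : ℝ := b i - b j with hδ
  obtain ⟨h3, h4⟩ := abs_lt.mp h1
  obtain ⟨h5, h6⟩ := abs_lt.mp h2
  set Rp : ℝ := s * ((1 + β / s) / 2 * τ (i, true) + (1 - β / s) / 2 * τ (j, false)) with hRp
  set Rm : ℝ := s * ((1 + β / s) / 2 * τ (j, true) + (1 - β / s) / 2 * τ (i, false)) with hRm
  have hq : ∀ q, ∫⁻ w, ENNReal.ofReal (Real.exp (b i * (w + q / 2) + b j * (w + q / 2 - q) -
        s * mm i j τ (w + q / 2) (w + q / 2 - q))) ≤
      ENNReal.ofReal (2 * s / (s ^ 2 - β ^ 2)) * ENNReal.ofReal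
        (Real.exp (δ / 2 * q - max (s / 2 * q - Rp) (-(s / 2 * q) - Rm))) := by
    intro q
    set t1 : ℝ := s * min (τ (i, true) - q / 2) (τ (j, true) + q / 2) with ht1
    set t2 : ℝ := s * min (τ (i, false) + q / 2) (τ (j, false) - q / 2) with ht2
    have e1 : ∀ w, Real.exp (b i * (w + q / 2) + b j * (w + q / 2 - q) -
        s * mm i j τ (w + q / 2) (w + q / 2 - q)) = Real.exp (δ / 2 * q) *
        Real.exp (β * w - max (s * w - t1) (-(s * w) - t2)) := by
      intro w
      rw [← Real.exp_add]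
      congr 1
      have e2 : s * mm i j τ (w + q / 2) (w + q / 2 - q) =
          max (s * w - t1) (-(s * w) - t2) := by
        have a1 : s * w - t1 = s * max (w + q / 2 - τ (i, true)) (w + q / 2 - q - τ (j, true)) := by
          rw [ht1, ← mul_sub]
          congr 1
          rw [← max_sub_sub_left]
          congr 1 <;> ring
        have a2 : -(s * w) - t2 =
            s * max (-(w + q / 2) - τ (i, false)) (-(w + q / 2 - q) - τ (j, false)) := by
          rw [ht2, ← mul_neg, ← mul_sub]
          congr 1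
          rw [← max_sub_sub_left]
          congr 1 <;> ring
        rw [a1, a2, ← mul_max_of_nonneg _ _ hs.le]
        congr 1
        unfold mm
        exact max_max_max_comm _ _ _ _
      rw [e2, hβ, hδ]
      ring
    simp only [e1, ENNReal.ofReal_mul (Real.exp_pos _).le]
    rw [lintegral_const_mul' _ _ ENNReal.ofReal_ne_top, core hs h1]
    rw [← ENNReal.ofReal_mul (Real.exp_pos _).le, ← ENNReal.ofReal_mul (by
      apply div_nonneg (by linarith)
      nlinarith)]
    apply ENNReal.ofReal_le_ofReal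
    have hpos : 0 ≤ 2 * s / (s ^ 2 - β ^ 2) := by
      apply div_nonneg (by linarith)
      nlinarith
    have e3 : Real.exp (δ / 2 * q) * (2 * s / (s ^ 2 - β ^ 2) *
        Real.exp ((s + β) / (2 * s) * t1 + (s - β) / (2 * s) * t2)) =
        2 * s / (s ^ 2 - β ^ 2) *
        Real.exp (δ / 2 * q + ((s + β) / (2 * s) * t1 + (s - β) / (2 * s) * t2)) := by
      rw [Real.exp_add (δ / 2 * q)]
      ring
    rw [e3]
    apply mul_le_mul_of_nonneg_left _ hpos
    apply Real.exp_le_exp.mpr
    have e4 : (s + β) / (2 * s) = (1 + β / s) / 2 := by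
      field_simp
    have e5 : (s - β) / (2 * s) = (1 - β / s) / 2 := by
      field_simp
    rw [e4, e5]
    have p1 : 0 ≤ (1 + β / s) / 2 := by
      have : (1 + β / s) / 2 = (s + β) / (2 * s) := e4.symm
      rw [this]
      apply div_nonneg <;> linarith
    have p2 : 0 ≤ (1 - β / s) / 2 := by
      have : (1 - β / s) / 2 = (s - β) / (2 * s) := e5.symm
      rw [this]
      apply div_nonneg <;> linarith
    have f1 : t1 ≤ s * (τ (i, true) - q / 2) :=
      mul_le_mul_of_nonneg_left (min_le_left _ _) hs.le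
    have f2 : t1 ≤ s * (τ (j, true) + q / 2) :=
      mul_le_mul_of_nonneg_left (min_le_right _ _) hs.le
    have f3 : t2 ≤ s * (τ (i, false) + q / 2) :=
      mul_le_mul_of_nonneg_left (min_le_left _ _) hs.le
    have f4 : t2 ≤ s * (τ (j, false) - q / 2) :=
      mul_le_mul_of_nonneg_left (min_le_right _ _) hs.le
    have g1 : max (s / 2 * q - Rp) (-(s / 2 * q) - Rm) ≤
        -((1 + β / s) / 2 * t1 + (1 - β / s) / 2 * t2) := by
      apply max_le
      · have k1 := mul_le_mul_of_nonneg_left f1 p1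
        have k2 := mul_le_mul_of_nonneg_left f4 p2
        rw [hRp]
        nlinarith
      · have k1 := mul_le_mul_of_nonneg_left f2 p1
        have k2 := mul_le_mul_of_nonneg_left f3 p2
        rw [hRm]
        nlinarith
    linarith
  calc _ ≤ ∫⁻ q, ENNReal.ofReal (2 * s / (s ^ 2 - β ^ 2)) * ENNReal.ofReal
        (Real.exp (δ / 2 * q - max (s / 2 * q - Rp) (-(s / 2 * q) - Rm))) :=
        lintegral_mono hq
    _ = _ := by
        rw [lintegral_const_mul' _ _ ENNReal.ofReal_ne_top, core (κ := s / 2) (β := δ / 2)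
          (by linarith) (by rw [abs_lt]; constructor <;> linarith),
          ← ENNReal.ofReal_mul (by apply div_nonneg (by linarith); nlinarith)]
        congr 1
        have k1 : 2 * (s / 2) / ((s / 2) ^ 2 - (δ / 2) ^ 2) = 4 * s / (s ^ 2 - δ ^ 2) := by
          have : s ^ 2 - δ ^ 2 ≠ 0 := by
            have : 0 < s ^ 2 - δ ^ 2 := by nlinarith
            exact this.ne'
          have h7 : (s / 2) ^ 2 - (δ / 2) ^ 2 ≠ 0 := by
            have e : (s / 2) ^ 2 - (δ / 2) ^ 2 = (s ^ 2 - δ ^ 2) / 4 := by ring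
            rw [e]
            exact div_ne_zero this (by norm_num)
          rw [div_eq_div_iff h7 this]
          ring
        rw [k1, mul_assoc]
        congr 3
        rw [hRp, hRm]
        field_simp
        ring

/-- Z2 -/
theorem z2 : S_z2 := by
  intro c i j hij b hb hb0 τ
  set s := sP i j b with hs
  have hsum : |b i| + |b j| < s := by
    have h1 := sum_split i j hij fun l => |b l|
    have h2 : s = 1 - ∑ l ∈ PP i j, |b l| := rfl
    rw [h2]
    rw [h1] at hb
    linarith
  have hs0 : 0 < s := lt_of_le_of_lt (by positivity) hsum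
  have h1 : |b i + b j| < s := lt_of_le_of_lt (abs_add_le _ _) hsum
  have h2 : |b i - b j| < s := lt_of_le_of_lt (abs_sub _ _) hsum
  rw [stepB]
  refine (stepD i j hij b hb0 τ).trans ?_
  rw [stepE i j b τ hs0]
  have hF := stepF i j b τ hs0 h1 h2
  have hKK : 0 ≤ KK i j b τ := by
    unfold KK
    positivity
  refine (mul_le_mul_right (mul_le_mul_right hF (ENNReal.ofReal (1 / s)))
    (ENNReal.ofReal (KK i j b τ))).trans (le_of_eq ?_)
  rw [← ENNReal.ofReal_mul (by positivity), ← ENNReal.ofReal_mul hKK]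
  congr 1
  obtain ⟨h3, h4⟩ := abs_lt.mp h1
  obtain ⟨h5, h6⟩ := abs_lt.mp h2
  have hX : 0 < s ^ 2 - (b i + b j) ^ 2 := by nlinarith
  have hY : 0 < s ^ 2 - (b i - b j) ^ 2 := by nlinarith
  have eX : 1 - ((b i + b j) / s) ^ 2 = (s ^ 2 - (b i + b j) ^ 2) / s ^ 2 := by
    field_simp
  have eY : 1 - ((b i - b j) / s) ^ 2 = (s ^ 2 - (b i - b j) ^ 2) / s ^ 2 := by
    field_simp
  have hP : 0 < ∏ l ∈ PP i j, |b l| := Finset.prod_pos fun l _ => abs_pos.mpr (hb0 l)
  have hL : Real.exp (LZPair i j b) = (∏ l ∈ PP i j, |b l|)⁻¹ / s ^ 3 * 8 /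
      ((s ^ 2 - (b i + b j) ^ 2) / s ^ 2) / ((s ^ 2 - (b i - b j) ^ 2) / s ^ 2) := by
    unfold LZPair
    rw [← hs, eX, eY, Real.exp_sub, Real.exp_sub, Real.exp_add, Real.exp_sub, Real.exp_neg,
      Real.exp_sum, Real.exp_log (by norm_num), Real.exp_log (by positivity),
      Real.exp_log (by positivity), show 3 * Real.log s = Real.log (s ^ 3) by
        rw [Real.log_pow]; norm_num, Real.exp_log (by positivity)]
    congr 5
    exact Finset.prod_congr rfl fun l _ => Real.exp_log (abs_pos.mpr (hb0 l))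
  have hS : ∑ a, lamPair i j b a * τ a =
      (s * ((1 + (b i + b j) / s) * (1 + (b i - b j) / s) / 4) * τ (i, true) +
          s * ((1 - (b i + b j) / s) * (1 - (b i - b j) / s) / 4) * τ (i, false) +
          s * ((1 + (b i + b j) / s) * (1 - (b i - b j) / s) / 4) * τ (j, true) +
          s * ((1 - (b i + b j) / s) * (1 + (b i - b j) / s) / 4) * τ (j, false)) +
        ∑ l ∈ PP i j, |b l| * τ (l, decide (0 ≤ b l)) := by
    rw [Fintype.sum_prod_type]
    simp only [Fintype.sum_bool]
    rw [sum_split i j hij]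
    congr 1
    · have q1 : lamPair i j b (i, true) = s * ((1 + (b i + b j) / s) * (1 + (b i - b j) / s) / 4) := by
        simp [lamPair, sb, ← hs]
      have q2 : lamPair i j b (i, false) =
          s * ((1 - (b i + b j) / s) * (1 - (b i - b j) / s) / 4) := by
        simp [lamPair, sb, ← hs, ← sub_eq_add_neg]
      have q3 : lamPair i j b (j, true) =
          s * ((1 + (b i + b j) / s) * (1 - (b i - b j) / s) / 4) := by
        simp [lamPair, sb, ← hs, hij.symm]
      have q4 : lamPair i j b (j, false) =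
          s * ((1 - (b i + b j) / s) * (1 + (b i - b j) / s) / 4) := by
        simp [lamPair, sb, ← hs, hij.symm, ← sub_eq_add_neg]
      rw [q1, q2, q3, q4]
      ring
    · refine Finset.sum_congr rfl fun l hl => ?_
      have hl' : l ≠ j ∧ l ≠ i := by simpa [PP] using hl
      unfold lamPair muC
      simp only [hl'.1, hl'.2, if_false]
      by_cases h0 : 0 ≤ b l
      · simp [h0]
      · simp [h0]
  rw [hS, Real.exp_add _ (LZPair i j b), Real.exp_add _ (∑ l ∈ PP i j, _), hL, KK]
  generalize Real.exp (∑ l ∈ PP i j, |b l| * τ (l, decide (0 ≤ b l))) = EA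
  generalize Real.exp (_ + _ + _ + _) = EB
  generalize ∏ l ∈ PP i j, |b l| = PA at *
  generalize s ^ 2 - (b i + b j) ^ 2 = X at *
  generalize s ^ 2 - (b i - b j) ^ 2 = Y at *
  field_simp
  ring

end Pool.Agent.TH52.LP931
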